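import Pool.Agent.Helper52_MA.Final
import Pool.Agent.Helper52_MA.Few

set_option autoImplicit false

namespace Pool.Agent.Results.MP_0ef954_lc.Backbone

/-- `HasProtocol n cost YES NO`: there is a public-coin one-way Merlin-Arthur protocol for pairs of
graphs on `Fin n` with proof length `p` and message length `m`, `p + m ≤ cost`, and `k` equally
likely coin outcomes.  Merlin sends `w`, Alice (who sees the coins, `w` and `x`) sends the message
`A r w x`, and Bob (who sees the coins, `w`, `y` and the message) accepts or rejects.  On every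
`YES` pair some proof is accepted with probability at least `2/3`; on every `NO` pair every proof
is accepted with probability at most `1/3`. -/
def HasProtocol (n : ℕ) (cost : ℝ)
    (YES NO : SimpleGraph (Fin n) → SimpleGraph (Fin n) → Prop) : Prop :=
  ∃ k p m : ℕ, 0 < k ∧ ((p + m : ℕ) : ℝ) ≤ cost ∧
    ∃ A : Fin k → (Fin p → Bool) → SimpleGraph (Fin n) → (Fin m → Bool),
    ∃ B : Fin k → (Fin p → Bool) → SimpleGraph (Fin n) → (Fin m → Bool) → Bool,
      ∀ x y : SimpleGraph (Fin n),
        (YES x y → ∃ w : Fin p → Bool,
            2 * k ≤ 3 * (Finset.univ.filter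
              (fun r : Fin k => B r w y (A r w x) = true)).card) ∧
        (NO x y → ∀ w : Fin p → Bool,
            3 * (Finset.univ.filter
              (fun r : Fin k => B r w y (A r w x) = true)).card ≤ k)

/-- The alternation graph of `x` and `y`: two distinct vertices are adjacent iff they lie in one
connected component of `x` or in one connected component of `y`.  It contains `x ⊔ y`, and has the
same connected components. -/
def altGraph {n : ℕ} (x y : SimpleGraph (Fin n)) : SimpleGraph (Fin n) where
  Adj u v := u ≠ v ∧ (x.Reachable u v ∨ y.Reachable u v)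
  symm := ⟨fun _ _ h => ⟨h.1.symm, h.2.imp (fun h => h.symm) (fun h => h.symm)⟩⟩
  loopless := ⟨fun _ h => h.1 rfl⟩

/-- A set `U` of at most `s` vertices is connected in the alternation graph (any two vertices of `U`
are joined by a path of the alternation graph inside `U`) and every vertex is within alternation
distance `Q` of `U`. -/
def HasBackbone {n : ℕ} (s Q : ℕ) (x y : SimpleGraph (Fin n)) : Prop :=
  ∃ U : Finset (Fin n), U.card ≤ s ∧
    ((altGraph x y).induce (U : Set (Fin n))).Connected ∧
    ∀ v, ∃ u ∈ U, (altGraph x y).dist v u ≤ Q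

/-- For all large `n`, all `s ≥ 1` and all `Q`, cost
`C (s log log n + n (log log n)² (log (Q + 1) + log log n) / log n)` suffices to reject all pairs
with disconnected union and to accept all pairs with connected union which have a backbone of at
most `s` vertices within alternation distance `Q` of every vertex. -/
theorem result : ∃ C : ℝ, ∃ n₀ : ℕ, ∀ n : ℕ, n₀ ≤ n → ∀ s Q : ℕ, 1 ≤ s →
    HasProtocol n (C * (s * Real.log (Real.log n) + n * Real.log (Real.log n) ^ 2 *
        (Real.log (Q + 1) + Real.log (Real.log n)) / Real.log n))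
      (fun x y => (x ⊔ y).Connected ∧ HasBackbone s Q x y)
      (fun x y => ¬ (x ⊔ y).Connected) := by
  obtain ⟨n₀, h⟩ := Helper52_MA.final_cost
  refine ⟨3000000, n₀, fun n hn s Q hs => ?_⟩
  obtain ⟨k, p, m, hk, hpm, A, B, H⟩ := h n hn s Q hs
  refine ⟨k, p, m, hk, hpm, A, B, fun x y => ⟨?_, (H x y).2⟩⟩
  rintro ⟨hG, U, hU1, hU2, hU3⟩
  apply (H x y).1
  have e : altGraph x y = Helper52_MA.altG x y := rfl
  rw [e] at hU2 hU3
  exact ⟨hG, Or.inr (Or.inl ⟨U, hU1, hU2, hU3⟩)⟩

end Pool.Agent.Results.MP_0ef954_lc.Backbone
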