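import Pool.Agent.Helper67_MA3.Final

set_option autoImplicit false

namespace Pool.Agent.Results.MP_0ef954_lc.Blocks

/-- `HasProtocol n cost YES NO`: there is a public-coin one-way Merlin-Arthur protocol for pairs of
graphs on `Fin n` with proof length `p` and message length `m`, `p + m ≤ cost`, and `k` equally
likely coin outcomes.  Merlin sends `w`, Alice (who sees the coins, `w` and `x`) sends the message
`A r w x`, and Bob (who sees the coins, `w`, `y` and the message) accepts or rejects.  On every
`YES` pair some proof is accepted with probability at least `2/3`; on every `NO` pair every proof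
is accepted with probability at most `1/3`. -/
def HasProtocol (n : ℕ) (cost : ℝ)
    (YES NO : SimpleGraph (Fin n) → SimpleGraph (Fin n) → Prop) : Prop :=
  ∃ k p m : ℕ, 0 < k ∧ ((p + m : ℕ) : ℝ) ≤ cost ∧
    ∃ A : Fin k → (Fin p → Bool) → SimpleGraph (Fin n) → (Fin m → Bool),
    ∃ B : Fin k → (Fin p → Bool) → SimpleGraph (Fin n) → (Fin m → Bool) → Bool,
      ∀ x y : SimpleGraph (Fin n),
        (YES x y → ∃ w : Fin p → Bool,
            2 * k ≤ 3 * (Finset.univ.filter
              (fun r : Fin k => B r w y (A r w x) = true)).card) ∧
        (NO x y → ∀ w : Fin p → Bool,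
            3 * (Finset.univ.filter
              (fun r : Fin k => B r w y (A r w x) = true)).card ≤ k)

/-- The pieces of the pair `(x, y)` with respect to the partition of the vertices into the classes
of `b` are the connected components of this graph: two distinct vertices are adjacent iff they lie
in one class of `b` and in one connected component of `x` or in one connected component of `y`. -/
def blockGraph {n : ℕ} (b : Fin n → ℕ) (x y : SimpleGraph (Fin n)) : SimpleGraph (Fin n) where
  Adj u v := u ≠ v ∧ b u = b v ∧ (x.Reachable u v ∨ y.Reachable u v)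
  symm := ⟨fun _ _ h => ⟨h.1.symm, h.2.1.symm,
    h.2.2.imp (fun h => h.symm) (fun h => h.symm)⟩⟩
  loopless := ⟨fun _ h => h.1 rfl⟩

/-- For all large `n`, every family of `M` public partitions of the vertices into classes of at most
`n / ⌈log₂ n⌉ ^ 10` vertices and all `t`, cost `C (log M + t log log n + n / log n)` suffices to
reject all pairs with disconnected union and to accept all pairs with connected union which have at
most `t` pieces with respect to one of the partitions. -/
theorem result : ∃ C : ℝ, ∃ n₀ : ℕ, ∀ n : ℕ, n₀ ≤ n → ∀ M : ℕ, 1 ≤ M →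
    ∀ b : Fin M → Fin n → ℕ,
    (∀ i k, (Finset.univ.filter (fun u => b i u = k)).card ≤ n / Nat.clog 2 n ^ 10) → ∀ t : ℕ,
    HasProtocol n (C * (Real.log M + t * Real.log (Real.log n) + n / Real.log n))
      (fun x y => (x ⊔ y).Connected ∧
        ∃ i, Nat.card (blockGraph (b i) x y).ConnectedComponent ≤ t)
      (fun x y => ¬ (x ⊔ y).Connected) := by
  obtain ⟨n₀, h⟩ := Helper67_MA3.blocksC_core
  refine ⟨60000, n₀, fun n hn M hM b hb t => ?_⟩
  obtain ⟨k, p, m, hk, hpm, A, B, H⟩ := (h n hn M hM b hb t).comap Helper42_MA.closG
  refine ⟨k, p, m, hk, hpm, A, B, fun x y => ⟨?_, ?_⟩⟩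
  · rintro ⟨hG, i, hi⟩
    apply (H x y).1
    have hcl : ∀ z : SimpleGraph (Fin n), Helper67_MA3.Cl (Helper42_MA.closG z) := by
      intro z u v huv
      by_cases huv' : u = v
      · exact Or.inl huv'
      · right
        refine ⟨huv', ?_⟩
        have h1 := Helper42_MA.closG_sup_reachable z z
          (huv.mono (le_sup_left : Helper42_MA.closG z ≤ Helper42_MA.closG z ⊔ Helper42_MA.closG z))
        rwa [sup_idem] at h1
    have e2 : Helper67_MA2.restr (b i) (Helper42_MA.closG x)
        ⊔ Helper67_MA2.restr (b i) (Helper42_MA.closG y) = blockGraph (b i) x y := by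
      ext u v
      rw [SimpleGraph.sup_adj]
      simp only [Helper67_MA2.restr, Helper42_MA.closG, blockGraph]
      tauto
    refine ⟨hcl x, hcl y, (Helper42_MA.closG_connected x y).mpr hG, i, ?_⟩
    rw [e2]
    exact hi
  · intro hno
    apply (H x y).2
    rwa [Helper42_MA.closG_connected]

end Pool.Agent.Results.MP_0ef954_lc.Blocks
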