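import Pool.Agent.Helper87_CF.Main

set_option autoImplicit false

namespace Pool.Agent.Results.MP_0ef954_lc.Distributional

/-- `HasProtocol n cost YES NO`: there is a public-coin one-way Merlin-Arthur protocol for pairs of
graphs on `Fin n` with proof length `p` and message length `m`, `p + m ≤ cost`, and `k` equally
likely coin outcomes.  Merlin sends `w`, Alice (who sees the coins, `w` and `x`) sends the message
`A r w x`, and Bob (who sees the coins, `w`, `y` and the message) accepts or rejects.  On every
`YES` pair some proof is accepted with probability at least `2/3`; on every `NO` pair every proof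
is accepted with probability at most `1/3`. -/
def HasProtocol (n : ℕ) (cost : ℝ)
    (YES NO : SimpleGraph (Fin n) → SimpleGraph (Fin n) → Prop) : Prop :=
  ∃ k p m : ℕ, 0 < k ∧ ((p + m : ℕ) : ℝ) ≤ cost ∧
    ∃ A : Fin k → (Fin p → Bool) → SimpleGraph (Fin n) → (Fin m → Bool),
    ∃ B : Fin k → (Fin p → Bool) → SimpleGraph (Fin n) → (Fin m → Bool) → Bool,
      ∀ x y : SimpleGraph (Fin n),
        (YES x y → ∃ w : Fin p → Bool,
            2 * k ≤ 3 * (Finset.univ.filter
              (fun r : Fin k => B r w y (A r w x) = true)).card) ∧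
        (NO x y → ∀ w : Fin p → Bool,
            3 * (Finset.univ.filter
              (fun r : Fin k => B r w y (A r w x) = true)).card ≤ k)

open Classical in
/-- For all `ε, δ > 0` and all large `n` there are `R` protocols of cost at most `ε n`, each of which
accepts every pair with connected union, such that every pair with disconnected union is rejected
soundly by at least `(1 - δ) R` of them.  For every distribution `μ` on the pairs of graphs one of
these protocols is sound on all disconnected pairs up to a part of measure at most `δ` times the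
measure of the disconnected pairs. -/
theorem result : ∀ ε δ : ℝ, 0 < ε → 0 < δ → ∃ n₀ : ℕ, ∀ n : ℕ, n₀ ≤ n →
    ∃ R : ℕ, 0 < R ∧ ∃ Sound : Fin R → SimpleGraph (Fin n) → SimpleGraph (Fin n) → Prop,
      (∀ s, HasProtocol n (ε * n) (fun x y => (x ⊔ y).Connected) (Sound s)) ∧
      (∀ x y, ¬ (x ⊔ y).Connected → (1 - δ) * R ≤ Nat.card {s // Sound s x y}) ∧
      ∀ μ : SimpleGraph (Fin n) × SimpleGraph (Fin n) → ℝ, (∀ q, 0 ≤ μ q) →
        ∃ s, ∑ q with ¬ (q.1 ⊔ q.2).Connected ∧ ¬ Sound s q.1 q.2, μ q ≤
          δ * ∑ q with ¬ (q.1 ⊔ q.2).Connected, μ q := by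
  intro ε δ hε hδ
  obtain ⟨N, hN⟩ := Pool.Agent.CF.H87.family ε δ hε hδ
  refine ⟨N, fun n hn => ?_⟩
  obtain ⟨R, hR, NO, h1, h2⟩ := hN n hn
  refine ⟨R, hR, NO, fun s => h1 s, ?_, ?_⟩
  · intro x y hxy
    have h3 := h2 x y hxy
    have h4 : Nat.card {s // NO s x y} + Nat.card {s // ¬ NO s x y} = R := by
      rw [Nat.card_eq_fintype_card, Nat.card_eq_fintype_card, Fintype.card_subtype,
        Fintype.card_subtype, Finset.card_filter_add_card_filter_not, Finset.card_univ,
        Fintype.card_fin]
    have h5 : (Nat.card {s // NO s x y} : ℝ) + Nat.card {s // ¬ NO s x y} = R := by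
      exact_mod_cast h4
    linarith
  · intro μ hμ
    have hne : (Finset.univ : Finset (Fin R)).Nonempty := ⟨⟨0, hR⟩, Finset.mem_univ _⟩
    have h3 : ∑ s : Fin R, ∑ q with ¬ (q.1 ⊔ q.2).Connected ∧ ¬ NO s q.1 q.2, μ q ≤
        ∑ _s : Fin R, δ * ∑ q with ¬ (q.1 ⊔ q.2).Connected, μ q := by
      rw [Finset.sum_const, Finset.card_univ, Fintype.card_fin, nsmul_eq_mul]
      have h4 : ∑ s : Fin R, ∑ q with ¬ (q.1 ⊔ q.2).Connected ∧ ¬ NO s q.1 q.2, μ q =
          ∑ q with ¬ (q.1 ⊔ q.2).Connected, (Nat.card {s // ¬ NO s q.1 q.2} : ℝ) * μ q := by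
        simp only [Finset.sum_filter]
        rw [Finset.sum_comm]
        refine Finset.sum_congr rfl fun q _ => ?_
        by_cases hq : (q.1 ⊔ q.2).Connected
        · simp only [hq, not_true, false_and, if_false, Finset.sum_const_zero]
        · simp only [hq, not_false_iff, true_and, if_true]
          rw [← Finset.sum_filter, Finset.sum_const, nsmul_eq_mul, Nat.card_eq_fintype_card,
            Fintype.card_subtype]
      rw [h4, Finset.mul_sum, Finset.mul_sum]
      refine Finset.sum_le_sum fun q hq => ?_
      have h5 := h2 q.1 q.2 (Finset.mem_filter.1 hq).2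
      have h6 := mul_le_mul_of_nonneg_right h5 (hμ q)
      linarith
    obtain ⟨s, -, hs⟩ := Finset.exists_le_of_sum_le hne h3
    exact ⟨s, hs⟩

end Pool.Agent.Results.MP_0ef954_lc.Distributional
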