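import Pool.Agent.Helper42_MA.Alt

set_option autoImplicit false

namespace Pool.Agent.Results.MP_0ef954_lc.SmallComponent

/-- `HasProtocol n cost YES NO`: there is a public-coin one-way Merlin-Arthur protocol for pairs of
graphs on `Fin n` with proof length `p` and message length `m`, `p + m ≤ cost`, and `k` equally
likely coin outcomes.  Merlin sends `w`, Alice (who sees the coins, `w` and `x`) sends the message
`A r w x`, and Bob (who sees the coins, `w`, `y` and the message) accepts or rejects.  On every
`YES` pair some proof is accepted with probability at least `2/3`; on every `NO` pair every proof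
is accepted with probability at most `1/3`. -/
def HasProtocol (n : ℕ) (cost : ℝ)
    (YES NO : SimpleGraph (Fin n) → SimpleGraph (Fin n) → Prop) : Prop :=
  ∃ k p m : ℕ, 0 < k ∧ ((p + m : ℕ) : ℝ) ≤ cost ∧
    ∃ A : Fin k → (Fin p → Bool) → SimpleGraph (Fin n) → (Fin m → Bool),
    ∃ B : Fin k → (Fin p → Bool) → SimpleGraph (Fin n) → (Fin m → Bool) → Bool,
      ∀ x y : SimpleGraph (Fin n),
        (YES x y → ∃ w : Fin p → Bool,
            2 * k ≤ 3 * (Finset.univ.filter
              (fun r : Fin k => B r w y (A r w x) = true)).card) ∧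
        (NO x y → ∀ w : Fin p → Bool,
            3 * (Finset.univ.filter
              (fun r : Fin k => B r w y (A r w x) = true)).card ≤ k)

/-- For all large `n` and all `Q < n`, cost
`C (n (log log n)² (log (Q + 1) + log log n) / log n + Q log n)` suffices to accept all pairs with
connected union and to reject all pairs whose union has a connected component with at most `Q`
vertices. -/
theorem result : ∃ C : ℝ, ∃ n₀ : ℕ, ∀ n : ℕ, n₀ ≤ n → ∀ Q : ℕ, Q < n →
    HasProtocol n (C * (n * Real.log (Real.log n) ^ 2 *
        (Real.log (Q + 1) + Real.log (Real.log n)) / Real.log n + Q * Real.log n))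
      (fun x y => (x ⊔ y).Connected)
      (fun x y => ∃ c : (x ⊔ y).ConnectedComponent, Nat.card c.supp ≤ Q) := by
  obtain ⟨n₀, h⟩ := Helper42_MA.typeIII_cost
  refine ⟨300000, n₀, fun n hn Q hQ => ?_⟩
  obtain ⟨k, p, m, hk, hpm, A, B, H⟩ := h n hn Q hQ
  refine ⟨k, p, m, hk, hpm.trans ?_, A, B, fun x y => ⟨(H x y).1, ?_⟩⟩
  · have h1 : 0 ≤ Real.log n := Real.log_natCast_nonneg n
    have h2 : (0:ℝ) ≤ Q * Real.log n := by positivity
    have h3 : (8:ℝ) * Q * Real.log n ≤ 300000 * (Q * Real.log n) := by nlinarith
    linarith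
  · rintro ⟨c, hc⟩
    apply (H x y).2
    obtain ⟨v, rfl⟩ := c.exists_rep
    have hcard : (Helper42_MA.compF (x ⊔ y) v).card ≤ Q := by
      rw [Nat.card_coe_set_eq] at hc
      rw [← Set.ncard_coe_finset]
      refine le_trans (Set.ncard_le_ncard ?_ (Set.toFinite _)) hc
      intro w hw
      rw [Finset.mem_coe, Helper42_MA.mem_compF] at hw
      exact (SimpleGraph.ConnectedComponent.eq.mpr hw).symm
    refine ⟨fun hcon => ?_, v, hcard⟩
    have : Helper42_MA.compF (x ⊔ y) v = Finset.univ := by
      apply Finset.eq_univ_of_forall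
      intro w
      rw [Helper42_MA.mem_compF]
      exact hcon.preconnected v w
    rw [this, Finset.card_univ, Fintype.card_fin] at hcard
    omega

end Pool.Agent.Results.MP_0ef954_lc.SmallComponent
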